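import Mathlib

namespace Pool.Agent.Results.MP_a23160_lc.Coloring

open Set

/-- A strictly increasing real function on a subset of a well-order has countable domain. -/
lemma countable_of_strictMonoOn {ι : Type} [LinearOrder ι] [WellFoundedLT ι] (M : Set ι)
    (s : ι → ℝ) (hs : StrictMonoOn s M) : M.Countable := by
  classical
  have key : ∀ m ∈ M, ∃ r : ℚ, s m < r ∧ ∀ k ∈ M, m < k → (r : ℝ) < s k := by
    intro m hm
    by_cases h : ∃ k, k ∈ M ∧ m < k
    · let k₀ := WellFounded.min (wellFounded_lt (α := ι)) {k | k ∈ M ∧ m < k} h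
      have hk₀ : k₀ ∈ M ∧ m < k₀ := WellFounded.min_mem _ {k | k ∈ M ∧ m < k} h
      obtain ⟨r, hr1, hr2⟩ := exists_rat_btwn (hs hm hk₀.1 hk₀.2)
      refine ⟨r, hr1, fun k hk hmk => lt_of_lt_of_le hr2 ?_⟩
      have : ¬ k < k₀ :=
        WellFounded.not_lt_min (wellFounded_lt (α := ι)) {k | k ∈ M ∧ m < k} ⟨hk, hmk⟩
      exact hs.monotoneOn hk₀.1 hk (not_lt.1 this)
    · obtain ⟨r, hr⟩ := exists_rat_gt (s m)
      exact ⟨r, hr, fun k hk hmk => absurd ⟨k, hk, hmk⟩ h⟩
  choose! r hr using key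
  refine countable_of_injective_of_countable_image (f := r) ?_ (to_countable _)
  intro a ha b hb hab
  rcases lt_trichotomy a b with h | h | h
  · have h1 := (hr a ha).2 b hb h
    have h2 := (hr b hb).1
    rw [hab] at h1
    exact absurd (h1.trans h2) (lt_irrefl _)
  · exact h
  · have h1 := (hr b hb).2 a ha h
    have h2 := (hr a ha).1
    rw [hab] at h2
    exact absurd (h1.trans h2) (lt_irrefl _)

/-- The top coefficient of `v` has the sign of `ε`. -/
def Lead {ι : Type} [LinearOrder ι] (ε : ℚ) (v : ι →₀ ℚ) : Prop :=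
  ∃ i, 0 < ε * v i ∧ ∀ j, i < j → v j = 0

lemma exists_top {ι : Type} [LinearOrder ι] (v : ι →₀ ℚ) (hv : v ≠ 0) :
    ∃ i, v i ≠ 0 ∧ ∀ j, i < j → v j = 0 := by
  have hne : v.support.Nonempty := Finsupp.support_nonempty_iff.2 hv
  refine ⟨v.support.max' hne, Finsupp.mem_support_iff.1 (Finset.max'_mem _ _), fun j hj => ?_⟩
  by_contra h
  exact absurd (Finset.le_max' _ j (Finsupp.mem_support_iff.2 h)) (not_le.2 hj)

lemma lead_or {ι : Type} [LinearOrder ι] (v : ι →₀ ℚ) (hv : v ≠ 0) :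
    Lead 1 v ∨ Lead (-1) v := by
  obtain ⟨i, hi, h⟩ := exists_top v hv
  rcases lt_or_gt_of_ne hi with h1 | h1
  · exact Or.inr ⟨i, by linarith, h⟩
  · exact Or.inl ⟨i, by linarith, h⟩

lemma lead_top {ι : Type} [LinearOrder ι] {ε : ℚ} {v : ι →₀ ℚ} (h : Lead ε v) {k : ι}
    (hk : v k ≠ 0) (hk' : ∀ j, k < j → v j = 0) : 0 < ε * v k := by
  obtain ⟨i, hi, hi'⟩ := h
  rcases lt_trichotomy i k with h1 | h1 | h1
  · exact absurd (hi' k h1) hk
  · rwa [← h1]
  · rw [hk' i h1] at hi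
    simp at hi

lemma main {ι : Type} [LinearOrder ι] [WellFoundedLT ι] (φ : ℝ ≃ₗ[ℚ] (ι →₀ ℚ)) (ε : ℚ) :
    ∀ (n : ℕ) (X : Set ℝ), (∀ x ∈ X, (φ x).support.card ≤ n) →
      (∀ x ∈ X, ∀ y ∈ X, x < y → Lead ε (φ y - φ x)) → X.Countable := by
  classical
  intro n
  induction n with
  | zero =>
    intro X hX _
    refine (countable_singleton (0 : ℝ)).mono fun x hx => ?_
    have := hX x hx
    rw [Nat.le_zero, Finset.card_eq_zero, Finsupp.support_eq_empty] at this
    simpa using this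
  | succ n ih =>
    intro X hX hH
    let Z : ℚ → ι → Set ℝ := fun q m => {x | x ∈ X ∧ φ x m = q ∧ ∀ j, m < j → φ x j = 0}
    have hM : ∀ q : ℚ, q ≠ 0 → {m | (Z q m).Nonempty}.Countable := by
      intro q hq
      have : ∀ m ∈ {m | (Z q m).Nonempty}, ∃ x, x ∈ Z q m := fun m hm => hm
      choose! s hs using this
      refine countable_of_strictMonoOn _ (fun m => ((ε * q : ℚ) : ℝ) * s m) ?_
      intro m hm k hk hmk
      obtain ⟨hx, hx1, hx2⟩ := hs m hm
      obtain ⟨hy, hy1, hy2⟩ := hs k hk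
      have hxk : φ (s m) k = 0 := hx2 k hmk
      rcases lt_trichotomy (s m) (s k) with h | h | h
      · have := lead_top (hH _ hx _ hy h) (k := k) (by simp [hxk, hy1, hq])
          (fun j hj => by simp [hy2 j hj, hx2 j (hmk.trans hj)])
        simp only [Finsupp.coe_sub, Pi.sub_apply, hxk, hy1, sub_zero] at this
        have h' : (0 : ℝ) < ((ε * q : ℚ) : ℝ) := by exact_mod_cast this
        exact mul_lt_mul_of_pos_left h h'
      · rw [h, hy1] at hxk
        exact absurd hxk hq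
      · have := lead_top (hH _ hy _ hx h) (k := k) (by simp [hxk, hy1, hq])
          (fun j hj => by simp [hy2 j hj, hx2 j (hmk.trans hj)])
        simp only [Finsupp.coe_sub, Pi.sub_apply, hxk, hy1, zero_sub] at this
        have h0 : ε * q < 0 := by linarith
        have h' : ((ε * q : ℚ) : ℝ) < 0 := by exact_mod_cast h0
        exact mul_lt_mul_of_neg_left h h'
    have hZ : ∀ q : ℚ, q ≠ 0 → ∀ m, (Z q m).Countable := by
      intro q hq m
      let t : ℝ := φ.symm (Finsupp.single m q)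
      refine countable_of_injective_of_countable_image (f := fun x => x - t)
        (fun a _ b _ hab => by simpa using hab) (ih _ ?_ ?_)
      · rintro _ ⟨x, ⟨hx, hx1, -⟩, rfl⟩
        have h1 : φ (x - t) = (φ x).erase m := by
          ext j
          by_cases hj : j = m
          · subst hj
            simp [t, hx1]
          · simp [t, Finsupp.erase_ne hj, Finsupp.single_eq_of_ne hj]
        have h2 : m ∈ (φ x).support := Finsupp.mem_support_iff.2 (by rw [hx1]; exact hq)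
        rw [h1, Finsupp.support_erase, Finset.card_erase_of_mem h2]
        have := hX x hx
        omega
      · rintro _ ⟨x, ⟨hx, -⟩, rfl⟩ _ ⟨y, ⟨hy, -⟩, rfl⟩ hxy
        have h1 : φ (y - t) - φ (x - t) = φ y - φ x := by
          simp only [map_sub]
          abel
        simp only
        rw [h1]
        exact hH x hx y hy (by simpa using hxy)
    have hU : (⋃ q ∈ {q : ℚ | q ≠ 0}, ⋃ m ∈ {m | (Z q m).Nonempty}, Z q m).Countable :=
      (to_countable _).biUnion fun q hq => (hM q hq).biUnion fun m _ => hZ q hq m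
    refine ((countable_singleton (0 : ℝ)).union hU).mono fun x hx => ?_
    by_cases h0 : x = 0
    · exact Or.inl h0
    · obtain ⟨i, hi, hi'⟩ := exists_top (φ x) (by simpa using h0)
      have hxZ : x ∈ Z (φ x i) i := ⟨hx, rfl, hi'⟩
      refine Or.inr ?_
      simp only [mem_iUnion]
      exact ⟨φ x i, hi, i, ⟨x, hxZ⟩, hxZ⟩

lemma main' {ι : Type} [LinearOrder ι] [WellFoundedLT ι] (φ : ℝ ≃ₗ[ℚ] (ι →₀ ℚ)) (ε : ℚ)
    (X : Set ℝ) (hH : ∀ x ∈ X, ∀ y ∈ X, x < y → Lead ε (φ y - φ x)) : X.Countable := by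
  have : X = ⋃ n : ℕ, {x | x ∈ X ∧ (φ x).support.card ≤ n} := by
    ext x
    simp only [mem_iUnion, mem_setOf_eq]
    exact ⟨fun hx => ⟨_, hx, le_rfl⟩, fun ⟨_, hx, _⟩ => hx⟩
  rw [this]
  exact countable_iUnion fun n => main φ ε n _ (fun x hx => hx.2)
    fun x hx y hy => hH x hx.1 y hy.1

/-- The two-element subsets of the real line. -/
abbrev Pair : Type := {p : Set ℝ // ∃ x y : ℝ, x ≠ y ∧ p = {x, y}}

/-- A colouring of pairs is isometric if pairs at the same distance get the same colour. -/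
def IsIsometric (χ : Pair → Fin 2) : Prop :=
  ∀ (p q : Pair) (x y z t : ℝ), p.1 = {x, y} → q.1 = {z, t} → |x - y| = |z - t| → χ p = χ q

/-- The colouring is constant on the two-element subsets of `X`. -/
def IsMonochrome (χ : Pair → Fin 2) (X : Set ℝ) : Prop :=
  ∀ p q : Pair, p.1 ⊆ X → q.1 ⊆ X → χ p = χ q

theorem exists_fun {ι : Type} (φ : ℝ ≃ₗ[ℚ] (ι →₀ ℚ)) : ∃ f : ℝ → Fin 2, ∀ X : Set ℝ,
    (∀ x ∈ X, ∀ y ∈ X, ∀ z ∈ X, ∀ t ∈ X, x ≠ y → z ≠ t → f |x - y| = f |z - t|) →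
      X.Countable := by
  classical
  obtain ⟨_, _⟩ := exists_wellOrder ι
  refine ⟨fun d => if Lead 1 (φ d) then 1 else 0, fun X hX => ?_⟩
  by_cases h : ∀ x ∈ X, ∀ y ∈ X, x < y → Lead 1 (φ y - φ x)
  · exact main' φ 1 X h
  · push Not at h
    obtain ⟨x, hx, y, hy, hxy, hn⟩ := h
    refine main' φ (-1) X fun z hz t ht hzt => ?_
    have := hX y hy x hx t ht z hz hxy.ne' hzt.ne'
    rw [abs_of_pos (sub_pos.2 hxy), abs_of_pos (sub_pos.2 hzt)] at this
    simp only [map_sub, hn, if_false] at this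
    refine (lead_or _ ?_).resolve_left fun h1 => ?_
    · rw [← map_sub]
      exact fun h0 => sub_ne_zero.2 hzt.ne' (φ.map_eq_zero_iff.1 h0)
    · simp [h1] at this

lemma pair_dist {x y z t : ℝ} (h : ({x, y} : Set ℝ) = {z, t}) : |x - y| = |z - t| := by
  rcases (pair_eq_pair_iff.1 h) with ⟨rfl, rfl⟩ | ⟨rfl, rfl⟩
  · rfl
  · exact abs_sub_comm _ _

theorem result : ∃ χ : Pair → Fin 2, IsIsometric χ ∧
    ∀ X : Set ℝ, IsMonochrome χ X → X.Countable := by
  obtain ⟨f, hf⟩ := exists_fun (Module.Basis.ofVectorSpace ℚ ℝ).repr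
  have hp : ∀ p : Pair, ∃ d : ℝ, ∀ x y : ℝ, p.1 = {x, y} → |x - y| = d := by
    rintro ⟨p, x, y, -, rfl⟩
    exact ⟨|x - y|, fun z t h => (pair_dist h).symm⟩
  choose d hd using hp
  refine ⟨fun p => f (d p), fun p q x y z t h1 h2 h => ?_, fun X hX => hf X ?_⟩
  · simp only
    rw [← hd p x y h1, ← hd q z t h2, h]
  · intro x hx y hy z hz t ht hxy hzt
    have := hX ⟨{x, y}, x, y, hxy, rfl⟩ ⟨{z, t}, z, t, hzt, rfl⟩
      (by simpa [insert_subset_iff] using ⟨hx, hy⟩) (by simpa [insert_subset_iff] using ⟨hz, ht⟩)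
    simp only at this
    rwa [← hd _ x y rfl, ← hd _ z t rfl] at this

end Pool.Agent.Results.MP_a23160_lc.Coloring
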